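import Pool.Agent.Results.MP_0f71ae_nt.RegularGrowth
import Pool.Agent.Run7.h254.KS.Select

/-!
# Progression-free subsets of arbitrary sets: the theorem of Komlós, Sulyok and Szemerédi with good constants

Let `r k N` be the largest size of a subset of `{1, ..., N}` without arithmetic progressions of length `k`
(`k = 3`: the function `r_3` of the question).  Komlós, Sulyok and Szemerédi (1975) proved that EVERY set of `n`
integers contains a subset of at least `c r_3(n)` elements without progressions of length three, with `c = 2^(-15)`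
(Abbott: `c = 1 / 34`).  Here for every `k ≥ 3` and every finite subset `A`, `|A| = n`, of a vector space over the
rational numbers (so for `n` integers, `n` real numbers, `n` points of `ℝ^d`, for instance a box of `ℤ^d`):

* (1) for ALL `n` there is a progression-free subset of at least `(7/32) r k n` elements;
* (2) for every `ε > 0` there is one of at least `(1/4 - ε) r k n` elements, for all `n` outside a set of logarithmic
  density zero (which does not depend on `A`).

Proof.  A random affine image modulo a large prime `p` of the elements (made integers by a linear map) is compared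
with `4 L` cells of equal length: the even cells in the lower half whose numbers belong to an extremal set for `r k L`.
One element is chosen from every cell which is met.  Their progressions give progressions of the cells.  The number
of the cells which are met is bounded from below with the first two moments.  For (1) `L = n`; for (2) `L = K n` with
a large `K` and the regular growth of `r k` (starting theorem `RegularGrowth`).
-/

set_option autoImplicit false

namespace Pool.Agent.Results.MP_0f71ae_nt.ArbitrarySets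

open Finset
open Pool.Agent.H617R3.AP (r)
open Pool.Agent.Run7.h254.KS (FreeUnder)

/-- `S` contains no arithmetic progression `a, a + d, ..., a + (k - 1) d` with `d ≠ 0`. -/
def Free {V : Type} [AddCommGroup V] (k : ℕ) (S : Finset V) : Prop :=
  ∀ a d : V, d ≠ 0 → ¬ ∀ i < k, a + i • d ∈ S

/-- an integer valued function on a finite set of vectors which respects all progressions -/
theorem exists_fun {V : Type} [AddCommGroup V] [Module ℚ V] (A : Finset V) :
    ∃ g : V → ℤ, Set.InjOn g A ∧ ∀ a ∈ A, ∀ b ∈ A, ∀ c ∈ A, a + c = 2 • b → g a + g c = 2 * g b := by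
  classical
  -- a linear form which separates the points of `A`
  obtain ⟨f, hf⟩ : ∃ f : Module.Dual ℚ V, ∀ a ∈ A, ∀ b ∈ A, a ≠ b → f a ≠ f b := by
    obtain ⟨f, hf⟩ := Module.exists_dual_forall_apply_ne_zero (K := ℚ) (M := V)
      (ι := {q : V × V // q ∈ A.offDiag}) (fun q => q.1.1 - q.1.2) (fun q => by
        have := (mem_offDiag.1 q.2).2.2
        exact sub_ne_zero.2 this)
    refine ⟨f, fun a ha b hb hab h => ?_⟩
    refine hf ⟨(a, b), mem_offDiag.2 ⟨ha, hb, hab⟩⟩ ?_
    rw [map_sub, h, sub_self]
  -- the common denominator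
  set D : ℕ := ∏ a ∈ A, (f a).den with hD
  have hD0 : D ≠ 0 := by
    rw [hD]; exact prod_ne_zero_iff.2 (fun a _ => (f a).den_nz)
  have hint : ∀ a ∈ A, ((D * f a).num : ℚ) = D * f a := by
    intro a ha
    obtain ⟨m, hm⟩ : (f a).den ∣ D := dvd_prod_of_mem _ ha
    have h1 : (D : ℚ) * f a = ((m * (f a).num : ℤ) : ℚ) := by
      rw [hm]
      push_cast
      have h2 : ((f a).den : ℚ) * f a = (f a).num := by
        rw [mul_comm]; exact Rat.mul_den_eq_num (f a)
      calc ((f a).den : ℚ) * m * f a = m * (((f a).den : ℚ) * f a) := by ring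
        _ = m * (f a).num := by rw [h2]
    rw [h1, Rat.num_intCast]
  refine ⟨fun v => (D * f v).num, ?_, ?_⟩
  · intro a ha b hb h
    simp only at h
    by_contra hne
    apply hf a ha b hb hne
    have h1 := hint a ha
    have h2 := hint b hb
    rw [h] at h1
    have h3 : (D : ℚ) * f a = D * f b := by rw [← h1, h2]
    exact mul_left_cancel₀ (by exact_mod_cast hD0) h3
  · intro a ha b hb c hc h
    have h1 := hint a ha
    have h2 := hint b hb
    have h3 := hint c hc
    have h4 : f a + f c = 2 * f b := by
      rw [← map_add, h, map_nsmul]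
      simp
    have h5 : (((D * f a).num + (D * f c).num : ℤ) : ℚ) = ((2 * (D * f b).num : ℤ) : ℚ) := by
      push_cast
      rw [h1, h2, h3]
      linear_combination (D : ℚ) * h4
    exact_mod_cast h5

theorem main {V : Type} [AddCommGroup V] [Module ℚ V] {k : ℕ} (hk : 3 ≤ k) (A : Finset V) (L : ℕ)
    (hL : 1 ≤ L) (hn : A.card ≤ 8 * L) :
    ∃ S : Finset V, S ⊆ A ∧ Free k S ∧
      r k L * (A.card * (8 * L - A.card)) ≤ 32 * L ^ 2 * S.card := by
  obtain ⟨g, hg1, hg2⟩ := exists_fun A
  obtain ⟨S, hS1, hS2, hS3⟩ := Pool.Agent.Run7.h254.KS.main hk A g hg1 L hL hn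
  refine ⟨S, hS1, ?_, hS3⟩
  intro a d hd hmem
  refine hS2 (fun i => a + i • d) ?_ ?_ hmem
  · intro h
    simp only [zero_smul, one_smul, add_zero] at h
    apply hd
    have h1 : a + d = a + 0 := by rw [add_zero]; exact h.symm
    exact add_left_cancel h1
  · intro i hi
    refine hg2 _ (hS1 (hmem i (by omega))) _ (hS1 (hmem (i + 1) (by omega))) _ (hS1 (hmem (i + 2) hi)) ?_
    rw [add_smul, add_smul, two_smul, two_smul, one_smul]
    abel

open Classical in
/-- **Progression-free subsets of arbitrary sets.** -/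
theorem result (k : ℕ) (hk : 3 ≤ k) :
    (∀ (V : Type) [AddCommGroup V] [Module ℚ V] (A : Finset V),
      ∃ S : Finset V, S ⊆ A ∧ Free k S ∧ (7 / 32 : ℝ) * r k A.card ≤ S.card) ∧
    ∀ ε : ℝ, 0 < ε → ∃ (C : ℝ) (E : Set ℕ),
      (∀ x : ℕ, 2 ≤ x → ∑ N ∈ (Icc 1 x).filter (fun N => N ∈ E), (1 : ℝ) / N ≤
        C * √(Real.log x)) ∧
      ∀ (V : Type) [AddCommGroup V] [Module ℚ V] (A : Finset V), A.card ∉ E →
        ∃ S : Finset V, S ⊆ A ∧ Free k S ∧ (1 / 4 - ε) * r k A.card ≤ S.card := by
  refine ⟨fun V _ _ A => ?_, fun ε hε => ?_⟩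
  · rcases Nat.eq_zero_or_pos A.card with h0 | h0
    · refine ⟨∅, empty_subset _, ?_, ?_⟩
      · intro a d _ h
        have := h 0 (by omega)
        simp at this
      · rw [h0, Pool.Agent.H617R3.AP.r_zero]; simp
    · obtain ⟨S, h1, h2, h3⟩ := main hk A A.card h0 (by omega)
      refine ⟨S, h1, h2, ?_⟩
      have e : 8 * A.card - A.card = 7 * A.card := by omega
      rw [e] at h3
      have h4 : A.card ^ 2 * (7 * r k A.card) ≤ A.card ^ 2 * (32 * S.card) := by
        calc A.card ^ 2 * (7 * r k A.card) = r k A.card * (A.card * (7 * A.card)) := by ring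
          _ ≤ _ := h3
          _ = _ := by ring
      have h5 := Nat.le_of_mul_le_mul_left h4 (by positivity)
      have h6 : (7 : ℝ) * r k A.card ≤ 32 * S.card := by exact_mod_cast h5
      linarith
  · -- the choice of `K`
    obtain ⟨K, hK⟩ := exists_nat_gt (1 / ε + 1)
    have hK1 : (1 : ℝ) < K := by
      have : 0 < 1 / ε := by positivity
      linarith
    have hKε : 1 / (K : ℝ) < ε := by
      rw [div_lt_iff₀ (by linarith)]
      have h1 : 1 / ε < K := by linarith
      rw [div_lt_iff₀ hε] at h1
      linarith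
    obtain ⟨C, E, hE1, hE2⟩ := (Pool.Agent.Results.MP_0f71ae_nt.RegularGrowth.result k hk).2.1 1 K one_pos
      le_rfl hK1.le
    refine ⟨C, E, hE1, fun V _ _ A hA => ?_⟩
    rcases Nat.eq_zero_or_pos A.card with h0 | h0
    · refine ⟨∅, empty_subset _, ?_, ?_⟩
      · intro a d _ h
        have := h 0 (by omega)
        simp at this
      · rw [h0, Pool.Agent.H617R3.AP.r_zero]; simp
    · have hKn : 1 ≤ K := by
        have : (0 : ℝ) < K := by linarith
        exact_mod_cast this
      set n := A.card with hn
      have hnr : (1 : ℝ) ≤ n := by exact_mod_cast h0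
      have hKr : (1 : ℝ) ≤ K := hK1.le
      have hr0 : (0 : ℝ) < r k n := Pool.Agent.H617R3.AP.r_pos hk h0
      obtain ⟨S, h1, h2, h3⟩ := main hk A (K * n) (Nat.mul_pos hKn h0) (by
        rw [← hn]
        nlinarith)
      refine ⟨S, h1, h2, ?_⟩
      rw [← hn] at h3
      have hreg := (hE2 n h0 hA).1 (K * n) (by
        push_cast
        have hKK : (1 : ℝ) ≤ K * K := by nlinarith
        calc (n : ℝ) = 1 * n := (one_mul _).symm
          _ ≤ (K * K) * n := mul_le_mul_of_nonneg_right hKK (by linarith)
          _ = K * (K * n) := by ring) (by push_cast; exact le_rfl)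
      have h4 : (K : ℝ) - 1 ≤ (r k (K * n) : ℝ) / r k n := by
        have h5 := (abs_le.1 hreg).1
        have h6 : ((K * n : ℕ) : ℝ) / n = K := by
          push_cast
          field_simp
        rw [h6] at h5
        linarith
      have h7 : ((K : ℝ) - 1) * r k n ≤ r k (K * n) := by
        rwa [le_div_iff₀ hr0] at h4
      have e : 8 * (K * n) - n = (8 * K - 1) * n := by
        rw [Nat.sub_mul, one_mul]
        congr 1
        ring
      rw [e] at h3
      have h8 : n ^ 2 * (r k (K * n) * (8 * K - 1)) ≤ n ^ 2 * (32 * K ^ 2 * S.card) := by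
        calc n ^ 2 * (r k (K * n) * (8 * K - 1)) = r k (K * n) * (n * ((8 * K - 1) * n)) := by ring
          _ ≤ _ := h3
          _ = _ := by ring
      have h9 := Nat.le_of_mul_le_mul_left h8 (by positivity)
      have h10 : (r k (K * n) : ℝ) * (8 * K - 1) ≤ 32 * (K : ℝ) ^ 2 * S.card := by
        have h11 : ((r k (K * n) * (8 * K - 1) : ℕ) : ℝ) ≤ ((32 * K ^ 2 * S.card : ℕ) : ℝ) := by
          exact_mod_cast h9
        push_cast [Nat.cast_sub (by omega : 1 ≤ 8 * K)] at h11
        linarith
      have h12 : ((K : ℝ) - 1) * r k n * (8 * K - 1) ≤ 32 * (K : ℝ) ^ 2 * S.card :=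
        (mul_le_mul_of_nonneg_right h7 (by linarith)).trans h10
      -- `(K - 1) (8 K - 1) ≥ 8 K^2 - 9 K ≥ 32 K^2 (1/4 - ε)`
      have h13 : 32 * (K : ℝ) ^ 2 * (1 / 4 - ε) ≤ ((K : ℝ) - 1) * (8 * K - 1) := by
        have h14 : 1 ≤ ε * K := by
          rw [div_lt_iff₀ (by linarith)] at hKε
          linarith
        nlinarith
      have h15 : 32 * (K : ℝ) ^ 2 * ((1 / 4 - ε) * r k n) ≤ 32 * (K : ℝ) ^ 2 * S.card := by
        calc 32 * (K : ℝ) ^ 2 * ((1 / 4 - ε) * r k n) = 32 * (K : ℝ) ^ 2 * (1 / 4 - ε) * r k n := by ring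
          _ ≤ ((K : ℝ) - 1) * (8 * K - 1) * r k n := mul_le_mul_of_nonneg_right h13 hr0.le
          _ = ((K : ℝ) - 1) * r k n * (8 * K - 1) := by ring
          _ ≤ _ := h12
      exact le_of_mul_le_mul_left h15 (by positivity)

end Pool.Agent.Results.MP_0f71ae_nt.ArbitrarySets
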