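import Pool.Agent.Run7.h918.AP.Fin

/-!
# The number of sets without three-term progressions, supersaturation, random subsets

`r 3 N` is the largest size of a subset of `{1, ..., N}` without three-term arithmetic progressions
(the function `r_3(N)` of the question). For every `ε > 0` and every exponent `K`, and for all `N`
outside a set whose sum of reciprocals up to `x` is `O(√(log x) log log x)`:

* (1) all subsets of `{1, ..., N}` without three-term progressions are covered by at most
  `exp (r 3 N / (log N) ^ K)` sets of size at most `(1 + ε) r 3 N`;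
* (2) the number of these subsets is at least `2 ^ (r 3 N)` and at most `2 ^ ((1 + ε) r 3 N)`;
* (3) every subset with at least `(1 + ε) r 3 N` elements contains at least `(log N) ^ K`
  three-term progressions per element;
* (4) for `(log N) ^ (-K) ≤ p ≤ 1` the largest progression-free subset of a random subset of
  `{1, ..., N}` of density `p` has between `(1 - ε) p r 3 N` and `(1 + ε) p r 3 N` elements with
  probability at least `1 - 2 exp (- ε ^ 2 p r 3 N / 64)`.

Proof. By Behrend's theorem the logarithm `F` of the density at the scales `2 ^ j` decreases by at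
most `4 √j` altogether. So for most `x` it is almost constant in the window `[x - C log x, x]`, and
`F y - F x ≤ (x - y) / 12` for all `y ≤ x` (a discrete rising sun lemma). If a set `A` is larger than
`(1 + ε) N` times the density at a scale `M`, then it contains a progression in many progressions
of length `M` and prime difference, and each three-term progression is counted few times. This gives
a supersaturation which is better for larger `A`, and an algorithm with two kinds of queries (one for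
vertices of high degree in a graph of forbidden pairs, one for vertices in many progressions)
covers all sets of size about `N d(2 ^ (y - 1))` by few sets of size about `N d(2 ^ y)`, for each `y`.
-/

set_option autoImplicit false

open Finset

namespace Pool.Agent.Results.MP_0f71ae_nt.CountingProgressionFreeSets

open Pool.Agent.H617R3.AP

/-- The number of three-term progressions `a < b < 2 b - a` in `A`. -/
def numAP (A : Finset ℕ) : ℕ := ((A ×ˢ A).filter fun p => p.1 < p.2 ∧ 2 * p.2 - p.1 ∈ A).card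

open Classical in
/-- The largest size of a subset of `S` without three-term progressions. -/
noncomputable def largest (S : Finset ℕ) : ℕ := (S.powerset.filter fun A => APFree 3 A).sup card

/-- The probability that the random subset of `{1, ..., N}`, in which each element is chosen
independently with probability `p`, is equal to `S`. -/
noncomputable def prob (N : ℕ) (p : ℝ) (S : Finset ℕ) : ℝ := p ^ S.card * (1 - p) ^ (N - S.card)

theorem numAP_ge (N : ℕ) (A : Finset ℕ) :
    (Pool.Agent.Run7.h918.AP.aps N A).card ≤ numAP A := by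
  unfold numAP
  refine card_le_card_of_injOn (fun p => (p.1, p.1 + p.2)) ?_ ?_
  · intro p hp
    have hp' : p ∈ Pool.Agent.Run7.h918.AP.aps N A := hp
    rw [Pool.Agent.Run7.h918.AP.mem_aps] at hp'
    show (p.1, p.1 + p.2) ∈ (A ×ˢ A).filter fun p => p.1 < p.2 ∧ 2 * p.2 - p.1 ∈ A
    rw [mem_filter, mem_product]
    refine ⟨⟨hp'.1.1, hp'.2.1⟩, by simp only; omega, ?_⟩
    have : 2 * (p.1 + p.2) - p.1 = p.1 + 2 * p.2 := by omega
    simp only
    rw [this]
    exact hp'.2.2
  · intro p _ q _ h
    simp only [Prod.mk.injEq] at h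
    exact Prod.ext h.1 (by omega)

open Classical in
/-- **Sets without three-term progressions at almost all scales**: containers, counting,
supersaturation, random subsets. -/
theorem result (ε : ℝ) (h0 : 0 < ε) (h1 : ε ≤ 1) (K : ℕ) : ∃ (C : ℝ) (E : Set ℕ),
    (∀ x : ℕ, 3 ≤ x → ∑ N ∈ (Icc 1 x).filter (fun N => N ∈ E), (1 : ℝ) / N ≤
      C * (√(Real.log x) * (1 + Real.log (1 + Real.log x)))) ∧
    ∀ N : ℕ, 1 ≤ N → N ∉ E →
      -- (1) containers
      (∃ 𝒞 : Finset (Finset ℕ), (𝒞.card : ℝ) ≤ Real.exp (r 3 N / Real.log N ^ K) ∧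
        (∀ B ∈ 𝒞, B ⊆ Icc 1 N ∧ (B.card : ℝ) ≤ (1 + ε) * r 3 N) ∧
        ∀ I ⊆ Icc 1 N, APFree 3 I → ∃ B ∈ 𝒞, I ⊆ B) ∧
      -- (2) the number of sets without three-term progressions
      ((2 : ℝ) ^ r 3 N ≤ ((Icc 1 N).powerset.filter fun I => APFree 3 I).card ∧
        (((Icc 1 N).powerset.filter fun I => APFree 3 I).card : ℝ) ≤ 2 ^ ((1 + ε) * r 3 N)) ∧
      -- (3) supersaturation
      (∀ A ⊆ Icc 1 N, (1 + ε) * r 3 N ≤ A.card → Real.log N ^ K * A.card ≤ numAP A) ∧
      -- (4) random subsets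
      ∀ p : ℝ, 1 / Real.log N ^ K ≤ p → p ≤ 1 →
        1 - 2 * Real.exp (-(ε ^ 2 / 64 * (p * r 3 N))) ≤
          ∑ S ∈ (Icc 1 N).powerset.filter (fun S => (1 - ε) * (p * r 3 N) ≤ largest S ∧
            (largest S : ℝ) ≤ (1 + ε) * (p * r 3 N)), prob N p S := by
  obtain ⟨m, w, x₀, η, hη, hcov⟩ := Pool.Agent.Run7.h918.AP.cover (ε := ε / 4) (by positivity)
    (by linarith) (K + 3)
  obtain ⟨x₁, hx₁⟩ : ∃ x₁ : ℕ, x₀ + 3 + ⌈4 / ε⌉₊ + ⌈128 / ε ^ 2⌉₊ ≤ x₁ := ⟨_, le_rfl⟩
  obtain ⟨C, -, hC⟩ := Pool.Agent.Run7.h918.AP.sum_bad m w x₁ hη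
  refine ⟨C, {N | Nat.log 2 N ∈ Pool.Agent.Run7.h918.AP.Bd m w x₁ η}, fun x hx =>
    hC _ (fun N hN => hN) x hx, fun N hN hNE => ?_⟩
  simp only [Set.mem_ofPred_eq] at hNE
  obtain ⟨x, hx⟩ : ∃ x : ℕ, x = Nat.log 2 N := ⟨_, rfl⟩
  rw [← hx] at hNE
  have hxx₁ : x₁ ≤ x := by
    by_contra hcon
    exact hNE (Or.inl (not_le.1 hcon))
  have hNE2 : Nat.log 2 N ∉ Pool.Agent.Run7.h918.AP.Bd m w x₀ η := by
    rw [← hx]
    rintro (h | h)
    · exact hNE (Or.inl (by omega))
    · exact hNE (Or.inr h)
  obtain ⟨hCov, hSup⟩ := hcov N hNE2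
  rw [← hx] at hCov hSup
  have hx3 : 3 ≤ x := by omega
  have hxr : (3 : ℝ) ≤ x := by exact_mod_cast hx3
  have hxε : 4 / ε ≤ x := (Nat.le_ceil _).trans (by exact_mod_cast (by omega : ⌈4 / ε⌉₊ ≤ x))
  have hxε2 : 128 / ε ^ 2 ≤ x :=
    (Nat.le_ceil _).trans (by exact_mod_cast (by omega : ⌈128 / ε ^ 2⌉₊ ≤ x))
  have hR : (0 : ℝ) < r 3 N := r_pos le_rfl hN
  have hlogx : Real.log N ≤ x := by
    rw [hx]
    exact Pool.Agent.Run7.h918.AP.log_le_natlog (by omega)
  have hlogL : 64 / ε ^ 2 ≤ Real.log N := by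
    have e1 : (2 : ℝ) ^ x ≤ N := by
      rw [hx]
      exact_mod_cast Nat.pow_log_le_self 2 (by omega)
    have e2 := Real.log_le_log (by positivity) e1
    rw [Real.log_pow] at e2
    have e3 := Real.log_two_gt_d9
    have e4 : 64 / ε ^ 2 = 128 / ε ^ 2 / 2 := by ring
    rw [e4]
    nlinarith
  have hlog1 : 1 ≤ Real.log N := by
    refine le_trans ?_ hlogL
    rw [le_div_iff₀ (by positivity)]
    nlinarith
  have hlog0 : 0 < Real.log N := by linarith
  obtain ⟨𝒞, hc1, hc2, hc3⟩ := Pool.Agent.Run7.h918.AP.family h0 h1 (K := K) hx hx3 hxε hCov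
  have hpow : Real.log N ^ (K + 1) ≤ (x : ℝ) ^ (K + 1) := pow_le_pow_left₀ hlog0.le hlogx _
  have hexp1 : r 3 N / (x : ℝ) ^ (K + 1) ≤ r 3 N / Real.log N ^ (K + 1) :=
    div_le_div_of_nonneg_left hR.le (by positivity) hpow
  refine ⟨⟨𝒞, ?_, fun B hB => ⟨(hc2 B hB).1, (hc2 B hB).2.trans ?_⟩, hc3⟩, ⟨?_, ?_⟩, ?_, ?_⟩
  · refine hc1.trans (Real.exp_le_exp.2 (hexp1.trans ?_))
    apply div_le_div_of_nonneg_left hR.le (by positivity)
    exact pow_le_pow_right₀ hlog1 (by omega)
  · apply mul_le_mul_of_nonneg_right _ hR.le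
    linarith
  · exact Pool.Agent.Run7.h918.AP.count_low
  · refine Pool.Agent.Run7.h918.AP.count h0 hc1 ?_ hR.le hc2 hc3
    refine hxε.trans ?_
    exact le_self_pow₀ (by linarith) (by omega)
  · intro A hA hAc
    have h2 := hSup A hA (by
      refine le_trans ?_ hAc
      apply mul_le_mul_of_nonneg_right _ hR.le
      linarith)
    have h3 : ((Pool.Agent.Run7.h918.AP.aps N A).card : ℝ) ≤ numAP A := by
      exact_mod_cast numAP_ge N A
    refine le_trans ?_ (h2.trans h3)
    apply mul_le_mul_of_nonneg_right _ (Nat.cast_nonneg _)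
    exact (pow_le_pow_left₀ hlog0.le hlogx K).trans (pow_le_pow_right₀ (by linarith) (by omega))
  · intro p hp hp1
    have hp0 : 0 ≤ p := le_trans (by positivity) hp
    have hcard : (𝒞.card : ℝ) ≤ Real.exp (p * r 3 N / Real.log N) := by
      refine hc1.trans (Real.exp_le_exp.2 (hexp1.trans ?_))
      rw [pow_succ, ← div_div]
      apply div_le_div_of_nonneg_right _ hlog0.le
      calc (r 3 N : ℝ) / Real.log N ^ K = 1 / Real.log N ^ K * r 3 N := by ring
        _ ≤ p * r 3 N := mul_le_mul_of_nonneg_right hp hR.le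
    have h2 := Pool.Agent.Run7.h918.AP.random h0 h1 hp0 hp1 hlogL hcard hc2 hc3
    have h3 := Pool.Agent.Run7.h918.AP.gen (U := Icc 1 N) (C := ∅) (empty_subset _) p 1
    simp only [one_pow, mul_one, card_empty, pow_zero] at h3
    have h4 := Finset.sum_filter_add_sum_filter_not (Icc 1 N).powerset
      (fun S => (1 - ε) * (p * r 3 N) ≤ largest S ∧ (largest S : ℝ) ≤ (1 + ε) * (p * r 3 N))
      (Pool.Agent.Run7.h918.AP.wt (Icc 1 N) p)
    rw [h3] at h4
    have h5 : ∀ S, prob N p S = Pool.Agent.Run7.h918.AP.wt (Icc 1 N) p S := by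
      intro S
      unfold prob Pool.Agent.Run7.h918.AP.wt
      rw [Nat.card_Icc]
      simp
    have h6 : (Icc 1 N).powerset.filter (fun S => ¬ ((1 - ε) * (p * r 3 N) ≤ largest S ∧
        (largest S : ℝ) ≤ (1 + ε) * (p * r 3 N))) =
        (Icc 1 N).powerset.filter (fun S => (Pool.Agent.Run7.h918.AP.a3 S : ℝ) <
          (1 - ε) * (p * r 3 N) ∨ (1 + ε) * (p * r 3 N) < Pool.Agent.Run7.h918.AP.a3 S) := by
      apply filter_congr
      intro S _
      have e : largest S = Pool.Agent.Run7.h918.AP.a3 S := rfl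
      rw [e, not_and_or, not_le, not_le]
    rw [h6] at h4
    rw [sum_congr rfl fun S _ => h5 S]
    linarith

end Pool.Agent.Results.MP_0f71ae_nt.CountingProgressionFreeSets
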