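import Pool.Agent.Run7.h945.ZG.Torsion
import Pool.Agent.Run7.h945.ZG.Energy
import Pool.Agent.Run7.h945.ZG.Asymp

/-!
# The least sumset of a progression-free set is the inverse function of `r_k`

`r k N` is `r_k(N)`, the largest size of a subset of `{1, ..., N}` without arithmetic progressions of
length `k` (`k = 3`: the function of the question), and `S k n` is the least number of sums of two
elements of a `k`-AP-free set of `n` integers.

(1) For every finite `k`-AP-free subset `A` of a torsion-free abelian group `|A| ≤ 8 r_k(2 |A + A|)`,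
`|A| ≤ 8 r_k(2 |A - 2 A|)` and the additive energy is at most `6 |A|^3 (r_k(|A|) / |A|)^(1/21)`.
(2) Conversely for every `N ≥ 1` there is a `k`-AP-free set `A` of `r_k(N)` integers with
`|A + A| ≤ 2 N - 1`, hence with energy at least `|A|^3 (r_k(N) / (2 N))`.
(3) So `S k n` is up to constants the inverse function of `r_k`, and on the logarithmic scale an
asymptotic formula for one of them is the same as an asymptotic formula for the other:
`log(N / r_k(N)) ~ c (log N)^β` if and only if `log(S_k(n) / n) ~ c (log n)^β`.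

Method. A random dilation modulo a large prime, the restriction to a quarter of the residues and the
reduction modulo `2 |A + A|` give a map for which at least half of the elements `b` are not the middle of
a new progression. The image of these elements is progression-free.
-/

set_option autoImplicit false

namespace Pool.Agent.Results.MP_0f71ae_nt.MinimalSumset

open Finset Filter Topology
open scoped Pointwise
open Pool.Agent.H523R2.AP (APFree)
open Pool.Agent.H617R3.AP (r card_le_r r_mono r_le r_le_self r_mul_le r_add r_zero exists_opt behrend)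
open Pool.Agent.Run7.h945.ZG

/-- `S k n` is the least size of `A + A` for a set `A` of `n` integers without progressions of
length `k`. -/
noncomputable def S (k n : ℕ) : ℕ :=
  sInf {s | ∃ A : Finset ℤ, APFree k A ∧ A.card = n ∧ (A + A).card = s}

/-- the progression-free subsets of `{1, ..., N}` as sets of integers -/
lemma lift {k : ℕ} (hk : 3 ≤ k) {N : ℕ} {A : Finset ℕ} (hA : A ⊆ Icc 1 N)
    (h : Pool.Agent.H617R3.AP.APFree k A) :
    APFree k (A.image fun n : ℕ => (n : ℤ)) ∧ (A.image fun n : ℕ => (n : ℤ)).card = A.card ∧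
      (A.image (fun n : ℕ => (n : ℤ)) + A.image fun n : ℕ => (n : ℤ)).card ≤ 2 * N - 1 := by
  refine ⟨?_, card_image_of_injective _ Nat.cast_injective, ?_⟩
  · intro x y hy h'
    have hmem : ∀ z : ℤ, z ∈ A.image (fun n : ℕ => (n : ℤ)) → 0 ≤ z ∧ z.toNat ∈ A := by
      intro z hz
      obtain ⟨n, hn, rfl⟩ := mem_image.1 hz
      exact ⟨by positivity, by simpa using hn⟩
    rcases lt_or_gt_of_ne hy with hy | hy
    · -- decreasing
      have h0 := hmem _ (h' (k - 1) (by omega))
      refine h (x + (k - 1) • y).toNat (-y).toNat (by omega) fun i hi => ?_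
      have h1 := hmem _ (h' (k - 1 - i) (by omega))
      have e : (x + (k - 1) • y).toNat + i * (-y).toNat = (x + (k - 1 - i) • y).toNat := by
        have e1 : (((x + (k - 1) • y).toNat + i * (-y).toNat : ℕ) : ℤ) =
            ((x + (k - 1 - i) • y).toNat : ℤ) := by
          push_cast
          rw [Int.toNat_of_nonneg h0.1, Int.toNat_of_nonneg h1.1, Int.toNat_of_nonneg (by omega)]
          simp only [nsmul_eq_mul]
          have e2 : ((k - 1 - i : ℕ) : ℤ) = ((k - 1 : ℕ) : ℤ) - i := by
            rw [Nat.cast_sub (by omega)]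
          rw [e2]
          ring
        exact_mod_cast e1
      rw [e]
      exact h1.2
    · have h0 := hmem _ (h' 0 (by omega))
      refine h x.toNat y.toNat (by omega) fun i hi => ?_
      have h1 := hmem _ (h' i hi)
      have h00 : 0 ≤ x := by simpa using h0.1
      have e : x.toNat + i * y.toNat = (x + i • y).toNat := by
        have e1 : ((x.toNat + i * y.toNat : ℕ) : ℤ) = ((x + i • y).toNat : ℤ) := by
          push_cast
          rw [Int.toNat_of_nonneg h00, Int.toNat_of_nonneg h1.1, Int.toNat_of_nonneg hy.le]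
          simp
        exact_mod_cast e1
      rw [e]
      exact h1.2
  · have h1 : A.image (fun n : ℕ => (n : ℤ)) + A.image (fun n : ℕ => (n : ℤ)) ⊆
        Icc (2 : ℤ) (2 * N) := by
      intro z hz
      obtain ⟨a', ha, b', hb, rfl⟩ := mem_add.1 hz
      obtain ⟨a, ha1, rfl⟩ := mem_image.1 ha
      obtain ⟨b, hb1, rfl⟩ := mem_image.1 hb
      have ha' := mem_Icc.1 (hA ha1)
      have hb' := mem_Icc.1 (hA hb1)
      rw [mem_Icc]
      constructor <;> omega
    refine (card_le_card h1).trans ?_
    rw [Int.card_Icc]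
    omega

/-- the set with the least sumset -/
lemma exists_S {k : ℕ} (hk : 3 ≤ k) (n : ℕ) :
    ∃ A : Finset ℤ, APFree k A ∧ A.card = n ∧ (A + A).card = S k n := by
  have hrt := r_tendsto (r := r k) (behrend hk) (fun _ _ h => r_mono h) (r_le_self k)
  obtain ⟨N, hN⟩ := (tendsto_atTop.1 hrt n).exists
  obtain ⟨A, hA, hA2, hA3⟩ := exists_opt (show 1 ≤ k by omega) N
  obtain ⟨B, hB, hB2⟩ := exists_subset_card_eq (hA3 ▸ hN : n ≤ A.card)
  obtain ⟨h1, h2, -⟩ := lift hk (hB.trans hA) (hA2.mono hB)
  exact Nat.sInf_mem (s := {s | ∃ A : Finset ℤ, APFree k A ∧ A.card = n ∧ (A + A).card = s})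
    ⟨_, _, h1, h2.trans hB2, rfl⟩

lemma S_le {k : ℕ} {A : Finset ℤ} (h : APFree k A) : S k A.card ≤ (A + A).card :=
  Nat.sInf_le ⟨A, h, rfl, rfl⟩

lemma optimal {k : ℕ} (hk : 3 ≤ k) (N : ℕ) :
    ∃ A : Finset ℤ, APFree k A ∧ A.card = r k N ∧ (A + A).card ≤ 2 * N - 1 := by
  obtain ⟨A, hA, hA2, hA3⟩ := exists_opt (show 1 ≤ k by omega) N
  obtain ⟨h1, h2, h3⟩ := lift hk hA hA2
  exact ⟨_, h1, h2.trans hA3, h3⟩

/-- **Theorem.** -/
theorem result (k : ℕ) (hk : 3 ≤ k) :
    -- (1) the bounds in torsion-free groups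
    (∀ (G : Type*) [AddCommGroup G] [IsAddTorsionFree G] [DecidableEq G] (A : Finset G),
      APFree k A →
        A.card ≤ 8 * r k (2 * (A + A).card) ∧
        A.card ≤ 8 * r k (2 * (A - A.image fun x => x + x).card) ∧
        ((A.addEnergy A : ℕ) : ℝ) ≤
          6 * (A.card : ℝ) ^ 3 * ((r k A.card : ℝ) / A.card) ^ (1 / 21 : ℝ)) ∧
    -- (2) they are sharp up to constants
    (∀ N : ℕ, 1 ≤ N → ∃ A : Finset ℤ, APFree k A ∧ A.card = r k N ∧
      (A + A).card ≤ 2 * N - 1 ∧
      (A.card : ℝ) ^ 3 * ((r k N : ℝ) / (2 * N)) ≤ (A.addEnergy A : ℕ)) ∧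
    -- (3) the least sumset is the inverse function of `r_k` up to constants
    (∀ n : ℕ, n ≤ 8 * r k (2 * S k n)) ∧ (∀ N : ℕ, S k (r k N) ≤ 2 * N - 1) ∧
    -- (4) the asymptotics on the logarithmic scale are the same
    (∀ β c : ℝ, 0 < β →
      (Tendsto (fun N : ℕ => Real.log (N / r k N) / Real.log N ^ β) atTop (𝓝 c) ↔
        Tendsto (fun n : ℕ => Real.log (S k n / n) / Real.log n ^ β) atTop (𝓝 c))) := by
  have hS2 : ∀ n : ℕ, n ≤ 8 * r k (2 * S k n) := fun n => by
    obtain ⟨A, h1, h2, h3⟩ := exists_S hk n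
    have := card_le_add hk h1
    rwa [h2, h3] at this
  have hS1 : ∀ N : ℕ, S k (r k N) ≤ 2 * N - 1 := fun N => by
    obtain ⟨A, h1, h2, h3⟩ := optimal hk N
    rw [← h2]
    exact (S_le h1).trans h3
  refine ⟨?_, ?_, hS2, hS1, ?_⟩
  · intro G _ _ _ A hA
    obtain ⟨B, hB, hc, h1, h2, h3⟩ := torsionfree hk hA
    refine ⟨?_, ?_, ?_⟩
    · rw [← hc]
      exact (card_le_add hk hB).trans (Nat.mul_le_mul_left _ (r_mono (Nat.mul_le_mul_left _ h1)))
    · rw [← hc]
      exact (card_le_sub hk hB).trans (Nat.mul_le_mul_left _ (r_mono (Nat.mul_le_mul_left _ h2)))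
    · have h4 := energy_le hk hB
      rw [hc] at h4
      rcases A.eq_empty_or_nonempty with rfl | hne
      · simp
      have hn : (0 : ℝ) < A.card := by exact_mod_cast hne.card_pos
      have h5 : ((A.addEnergy A : ℕ) : ℝ) ≤ (B.addEnergy B : ℕ) := by exact_mod_cast h3
      refine h5.trans ?_
      have h6 : ((B.addEnergy B : ℕ) : ℝ) ^ 21 ≤
          (6 * (A.card : ℝ) ^ 3 * ((r k A.card : ℝ) / A.card) ^ (1 / 21 : ℝ)) ^ 21 := by
        have e1 : (((r k A.card : ℝ) / A.card) ^ (1 / 21 : ℝ)) ^ 21 =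
            (r k A.card : ℝ) / A.card := by
          rw [← Real.rpow_natCast, ← Real.rpow_mul (by positivity)]
          norm_num
        rw [mul_pow, mul_pow, e1]
        have e2 : (2 : ℝ) ^ 52 ≤ 6 ^ 21 := by norm_num
        have e3 : ((B.addEnergy B : ℕ) : ℝ) ^ 21 ≤
            2 ^ 52 * (A.card : ℝ) ^ 63 * r k A.card / A.card := by
          rw [le_div_iff₀ hn]
          exact h4
        calc _ ≤ 2 ^ 52 * (A.card : ℝ) ^ 63 * r k A.card / A.card := e3
          _ = 2 ^ 52 * (((A.card : ℝ) ^ 3) ^ 21 * ((r k A.card : ℝ) / A.card)) := by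
              rw [← pow_mul]
              ring
          _ ≤ 6 ^ 21 * (((A.card : ℝ) ^ 3) ^ 21 * ((r k A.card : ℝ) / A.card)) :=
              mul_le_mul_of_nonneg_right e2 (by positivity)
          _ = _ := by ring
      exact le_of_pow_le_pow_left₀ (by norm_num) (by positivity) h6
  · intro N hN
    obtain ⟨A, h1, h2, h3⟩ := optimal hk N
    refine ⟨A, h1, h2, h3, ?_⟩
    have h4 : ((A.card : ℝ) ^ 2) * (A.card : ℝ) ^ 2 ≤
        ((A + A).card : ℝ) * (A.addEnergy A : ℕ) := by
      exact_mod_cast le_card_add_mul_addEnergy A A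
    have h5 : ((A + A).card : ℝ) ≤ 2 * N := by
      have : (A + A).card ≤ 2 * N := by omega
      exact_mod_cast this
    have hN' : (0 : ℝ) < 2 * N := by positivity
    rw [← h2, mul_div_assoc', div_le_iff₀ hN']
    calc (A.card : ℝ) ^ 3 * A.card = ((A.card : ℝ) ^ 2) * (A.card : ℝ) ^ 2 := by ring
      _ ≤ ((A + A).card : ℝ) * (A.addEnergy A : ℕ) := h4
      _ ≤ (2 * N) * (A.addEnergy A : ℕ) := mul_le_mul_of_nonneg_right h5 (Nat.cast_nonneg _)
      _ = _ := by ring
  · intro β c hβ
    refine asymp (r_zero k) (fun N => ?_) (fun _ _ h => r_mono h) (r_le_self k) (behrend hk)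
      (fun M N hN => r_le (by omega) M hN) (fun N => (hS1 N).trans (by omega)) (fun n => ?_) hS2 hβ
    · exact (r_add (by omega) N 1).trans (Nat.add_le_add_left (r_le_self k 1) _)
    · obtain ⟨A, -, h2, h3⟩ := exists_S hk n
      rw [← h3, ← h2]
      rcases A.eq_empty_or_nonempty with rfl | hne
      · simp
      · exact card_le_card_add_right hne

end Pool.Agent.Results.MP_0f71ae_nt.MinimalSumset
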