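import Pool.Agent.Run7.h605.Var.Main

set_option autoImplicit false

/-!
# Sharp supersaturation for `k`-term progressions, and the growth of `r_k(N)`

`Pool.Agent.H617R3.AP.r k N` is `r_k(N)`, the largest size of a subset of `{1, ..., N}` without a
progression `a, a + d, ..., a + (k - 1) d`, `d ≥ 1`. Write `δ(M) = r_k(M) / M`.

Part 1. Sets of density just above `δ(M)` contain at least about `δ(M) N² / (M log M)` progressions with
`k` terms, and there are sets of density `δ(M) / 3` with at most `δ(M) N² / (2 M)` of them. So the power of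
`M` lost in the argument of Varnavides is exactly one, up to the logarithm.

Part 2. Hence, on the logarithmic scale, an asymptotic formula for `r_k(N)` is the same as one for the
function of Varnavides `V k α`, the least proportion of progressions in sets of density `α`:
`log(N / r_k(N)) ~ c (log N)^β` if and only if `log(1 / V k α) ~ (log(1/α) / c)^(1/β)` as `α → 0`.

Method. Average over the progressions with `M` terms and a difference `q` free of primes up to `M`: the
difference `q j`, `j < M`, of a `k`-term progression inside determines `q` and `j`, so each `k`-term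
progression of the set is counted at most `M` times. The proportion of such `q` is of order `1 / log M` by
the theorem of Mertens. The example is the union of the lower halves of the blocks of length `N / M` indexed
by an optimal set in `{1, ..., M}`: all its progressions lie inside one block.
-/

open Finset Filter Topology

namespace Pool.Agent.Results.MP_0f71ae_nt.VarnavidesFunction

open Pool.Agent.H617R3.AP Run7.h605.Var

theorem result :
    (∃ c : ℝ, 0 < c ∧ ∀ k M N : ℕ, 3 ≤ k → 2 ≤ M →
      (∀ ε : ℝ, 0 < ε → 2 * (M : ℝ) * 4 ^ M ≤ ε * N → ∀ A ⊆ Icc 1 N,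
        (1 + ε) * ((r k M : ℝ) / M) * N ≤ (A.card : ℝ) →
        c * ε ^ 2 * ((r k M : ℝ) / M) / (M * Real.log M) * (N : ℝ) ^ 2 ≤ (progs k A : ℝ)) ∧
      (3 * M ≤ N → ∃ A ⊆ Icc 1 N, (r k M : ℝ) / M / 3 * N ≤ (A.card : ℝ) ∧
        (progs k A : ℝ) ≤ (r k M : ℝ) / M / (2 * M) * (N : ℝ) ^ 2)) ∧
    ∀ k : ℕ, 3 ≤ k → ∀ β c : ℝ, 0 < β → 0 < c →
      (Tendsto (fun N : ℕ => Real.log (N / r k N) / Real.log N ^ β) atTop (𝓝 c) ↔
        Tendsto (fun α : ℝ => Real.log (1 / V k α) / Real.log (1 / α) ^ (1 / β)) (𝓝[>] 0)
          (𝓝 ((1 / c) ^ (1 / β)))) :=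
  main

end Pool.Agent.Results.MP_0f71ae_nt.VarnavidesFunction
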